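import Pool.Agent.W770.KP.Stm

/-!
# Interpolation with multiplicities, large degree
-/

set_option autoImplicit false

open scoped Classical

namespace Pool.Agent.W366.KP

open Pool.Agent.W770.KP MvPolynomial

variable {F : Type} [Field F] [Fintype F] {m : ℕ}

theorem shift_mul (z : Fin m → F) (P Q : MvPolynomial (Fin m) F) :
    shift z (P * Q) = shift z P * shift z Q := by
  unfold shift
  rw [map_mul]

theorem cc_shift (z : Fin m → F) (P : MvPolynomial (Fin m) F) :
    constantCoeff (shift z P) = eval z P := by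
  have h : (constantCoeff (σ := Fin m) (R := F)).comp
      (bind₁ (fun i => X i + C (z i)) : MvPolynomial (Fin m) F →ₐ[F] MvPolynomial (Fin m) F).toRingHom
      = eval z := by
    refine MvPolynomial.ringHom_ext (fun r => ?_) (fun i => ?_)
    · simp
    · simp
  have h2 := congrArg (fun f : MvPolynomial (Fin m) F →+* F => f P) h
  exact h2

theorem frob (z : Fin m → F) (i : Fin m) :
    shift z (X i ^ Fintype.card F - X i) = X i ^ Fintype.card F - X i := by
  obtain ⟨p, hp, n, hpn, hn⟩ := FiniteField.card' F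
  have : Fact p.Prime := ⟨hpn⟩
  unfold shift
  rw [map_sub, map_pow, bind₁_X_right]
  have h1 : (X i + C (z i) : MvPolynomial (Fin m) F) ^ Fintype.card F =
      X i ^ Fintype.card F + C (z i) ^ Fintype.card F := by
    rw [hn]
    exact add_pow_char_pow (X i : MvPolynomial (Fin m) F) (C (z i)) (p := p) (n := (n : ℕ))
  rw [h1, ← map_pow, FiniteField.pow_card]
  ring

/-- The Lagrange part. -/
noncomputable def La (z : Fin m → F) : MvPolynomial (Fin m) F :=
  ∏ i : Fin m, ∏ w ∈ Finset.univ.erase (z i), (X i - C w)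

/-- The main part. -/
noncomputable def Pa (β : Fin m → ℕ) : MvPolynomial (Fin m) F :=
  ∏ i : Fin m, (X i ^ Fintype.card F - X i) ^ β i

/-- The unit part. -/
noncomputable def Ra (β : Fin m → ℕ) : MvPolynomial (Fin m) F :=
  ∏ i : Fin m, (X i ^ (Fintype.card F - 1) - 1) ^ β i

theorem eval_La_self (z : Fin m → F) : eval z (La z) ≠ 0 := by
  unfold La
  rw [map_prod]
  refine Finset.prod_ne_zero_iff.2 fun i _ => ?_
  rw [map_prod]
  refine Finset.prod_ne_zero_iff.2 fun w hw => ?_
  rw [map_sub, eval_X, eval_C]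
  exact sub_ne_zero.2 (Finset.ne_of_mem_erase hw).symm

theorem eval_La_ne (z z' : Fin m → F) (h : z' ≠ z) : eval z' (La z) = 0 := by
  obtain ⟨i, hi⟩ := Function.ne_iff.1 h
  unfold La
  rw [map_prod]
  refine Finset.prod_eq_zero (Finset.mem_univ i) ?_
  rw [map_prod]
  refine Finset.prod_eq_zero (Finset.mem_erase.2 ⟨hi, Finset.mem_univ (z' i)⟩) ?_
  rw [map_sub, eval_X, eval_C, sub_self]

theorem shift_Pa (z : Fin m → F) (β : Fin m → ℕ) : shift z (Pa β) = Pa β := by
  have h : ∀ i : Fin m, shift z (X i ^ Fintype.card F - X i) = X i ^ Fintype.card F - X i :=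
    frob z
  unfold shift at h
  unfold shift Pa
  rw [map_prod]
  refine Finset.prod_congr rfl fun i _ => ?_
  rw [map_pow, h]

theorem Pa_eq (β : Fin m → ℕ) : (Pa β : MvPolynomial (Fin m) F) =
    monomial (Finsupp.equivFunOnFinite.symm β) 1 * Ra β := by
  unfold Pa Ra
  rw [monomial_eq, C_1, one_mul, Finsupp.prod_fintype _ _ (fun i => pow_zero _),
    ← Finset.prod_mul_distrib]
  refine Finset.prod_congr rfl fun i _ => ?_
  have h1 : (X i ^ Fintype.card F - X i : MvPolynomial (Fin m) F) =
      X i * (X i ^ (Fintype.card F - 1) - 1) := by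
    have h2 : Fintype.card F = (Fintype.card F - 1) + 1 :=
      (Nat.sub_add_cancel Fintype.card_pos).symm
    nth_rewrite 1 [h2]
    rw [pow_succ]
    ring
  rw [h1, mul_pow]
  rfl

theorem cc_Ra (β : Fin m → ℕ) : constantCoeff (Ra β : MvPolynomial (Fin m) F) ≠ 0 := by
  unfold Ra
  rw [map_prod]
  refine Finset.prod_ne_zero_iff.2 fun i _ => ?_
  rw [map_pow]
  refine pow_ne_zero _ ?_
  rw [map_sub, map_pow, constantCoeff_X, map_one]
  have : Fintype.card F - 1 ≠ 0 := by
    have := Fintype.one_lt_card (α := F)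
    omega
  rw [zero_pow this, zero_sub]
  exact neg_ne_zero.2 one_ne_zero

/-- The polynomials. -/
noncomputable def Az (z : Fin m → F) (β : Fin m → ℕ) : MvPolynomial (Fin m) F := Pa β * La z

theorem coeff_shift (z z' : Fin m → F) (β γ : Fin m → ℕ) (h : ∑ i, γ i ≤ ∑ i, β i)
    (hne : (z', β) ≠ (z, γ)) :
    (shift z (Az z' β)).coeff (Finsupp.equivFunOnFinite.symm γ) = 0 := by
  unfold Az
  rw [shift_mul, shift_Pa, Pa_eq, mul_assoc, coeff_monomial_mul']
  split_ifs with hle
  · have hle' : ∀ i, β i ≤ γ i := fun i => hle i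
    have heq : β = γ := by
      funext i
      have h1 : ∑ i, β i ≤ ∑ i, γ i := Finset.sum_le_sum fun i _ => hle' i
      have h2 := (Finset.sum_eq_sum_iff_of_le (fun i _ => hle' i)).1 (le_antisymm h1 h)
      exact h2 i (Finset.mem_univ i)
    subst heq
    have hz : z ≠ z' := fun h' => hne (by rw [h'])
    rw [tsub_self, one_mul]
    have h3 : coeff 0 (Ra β * shift z (La z')) = constantCoeff (Ra β * shift z (La z')) := by
      rw [constantCoeff_eq]
    rw [h3, map_mul, cc_shift, eval_La_ne z' z hz, mul_zero]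
  · rfl

theorem coeff_shift_self (z : Fin m → F) (γ : Fin m → ℕ) :
    (shift z (Az z γ)).coeff (Finsupp.equivFunOnFinite.symm γ) ≠ 0 := by
  unfold Az
  rw [shift_mul, shift_Pa, Pa_eq, mul_assoc, coeff_monomial_mul', if_pos le_rfl, tsub_self,
    one_mul]
  have h3 : coeff 0 (Ra γ * shift z (La z)) = constantCoeff (Ra γ * shift z (La z)) := by
    rw [constantCoeff_eq]
  rw [h3, map_mul, cc_shift]
  exact mul_ne_zero (cc_Ra γ) (eval_La_self z)

theorem deg_La (z : Fin m → F) : (La z).totalDegree ≤ m * (Fintype.card F - 1) := by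
  unfold La
  refine (totalDegree_finsetProd _ _).trans ?_
  have h : ∀ i ∈ (Finset.univ : Finset (Fin m)),
      (∏ w ∈ Finset.univ.erase (z i), (X i - C w) : MvPolynomial (Fin m) F).totalDegree ≤
        Fintype.card F - 1 := by
    intro i _
    refine (totalDegree_finsetProd _ _).trans ?_
    have h2 : ∀ w ∈ Finset.univ.erase (z i),
        (X i - C w : MvPolynomial (Fin m) F).totalDegree ≤ 1 := by
      intro w _
      refine (totalDegree_sub_C_le _ _).trans ?_
      rw [totalDegree_X]
    refine (Finset.sum_le_sum h2).trans ?_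
    rw [Finset.sum_const, Finset.card_erase_of_mem (Finset.mem_univ _), Finset.card_univ]
    simp
  refine (Finset.sum_le_sum h).trans ?_
  rw [Finset.sum_const, Finset.card_univ, Fintype.card_fin, smul_eq_mul]

theorem deg_Pa (β : Fin m → ℕ) :
    (Pa β : MvPolynomial (Fin m) F).totalDegree ≤ ∑ i, β i * Fintype.card F := by
  unfold Pa
  refine (totalDegree_finsetProd _ _).trans (Finset.sum_le_sum fun i _ => ?_)
  refine (totalDegree_pow _ _).trans (Nat.mul_le_mul_left _ ?_)
  refine (totalDegree_sub _ _).trans ?_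
  rw [totalDegree_X_pow, totalDegree_X]
  exact max_le le_rfl Fintype.card_pos

theorem arith (m q a : ℕ) (hq : 1 ≤ q) (β : Fin m → Fin a) :
    (∑ i, (β i : ℕ) * q) + m * (q - 1) ≤ m * q * a ∧ (∑ i, (β i : ℕ)) * q ≤ m * q * a := by
  have h1 : ∀ i ∈ (Finset.univ : Finset (Fin m)), (β i : ℕ) * q + (q - 1) ≤ q * a := by
    intro i _
    have h2 : (β i : ℕ) + 1 ≤ a := (β i).2
    have h3 : ((β i : ℕ) + 1) * q ≤ a * q := Nat.mul_le_mul_right q h2
    have h4 : ((β i : ℕ) + 1) * q = (β i : ℕ) * q + q := by ring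
    have h5 : q * a = a * q := by ring
    omega
  have h2 := Finset.sum_le_sum h1
  rw [Finset.sum_add_distrib, Finset.sum_const, Finset.sum_const, Finset.card_univ,
    Fintype.card_fin, smul_eq_mul, smul_eq_mul] at h2
  have h3 : m * q * a = m * (q * a) := by ring
  refine ⟨by omega, ?_⟩
  rw [Finset.sum_mul]
  omega

theorem ilmb : S_ILMB := by
  intro m hm F _ _ Z e he
  have hq : 1 ≤ Fintype.card F := Fintype.card_pos
  have hmq : 0 < m * Fintype.card F := Nat.mul_pos hm hq
  set q := Fintype.card F with hqdef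
  set a := e / (m * q) with hadef
  have ha1 : 1 ≤ a := (Nat.one_le_div_iff hmq).2 he
  have ha2 : m * q * a ≤ e := Nat.mul_div_le e (m * q)
  have ha3 : e + 1 ≤ (a + 1) * (m * q) := by
    have := Nat.lt_mul_div_succ e hmq
    rw [← hadef] at this
    have h2 : (a + 1) * (m * q) = m * q * (a + 1) := by ring
    omega
  let ι : Type := {z // z ∈ Z} × (Fin m → Fin a)
  let eq : ι ≃ Fin (Fintype.card ι) := Fintype.equivFin ι
  have hcard : Fintype.card ι = Z.card * a ^ m := by
    show Fintype.card ({z // z ∈ Z} × (Fin m → Fin a)) = _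
    rw [Fintype.card_prod, Fintype.card_coe, Fintype.card_fun, Fintype.card_fin, Fintype.card_fin]
  refine ⟨Fintype.card ι, fun s => Az ((eq.symm s).1 : Fin m → F)
    (fun i => ((eq.symm s).2 i : ℕ)), fun s => ?_, ?_, ?_⟩
  · refine (totalDegree_mul _ _).trans ?_
    refine (add_le_add (deg_Pa _) (deg_La _)).trans ?_
    exact (arith m q a hq (eq.symm s).2).1.trans ha2
  · rw [hcard, Nat.cast_mul, Nat.cast_pow]
    refine mul_le_mul_of_nonneg_left ?_ (Nat.cast_nonneg _)
    refine pow_le_pow_left₀ (by positivity) ?_ m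
    have hmR : (0 : ℝ) < m := by exact_mod_cast hm
    have hqR : (0 : ℝ) < q := by exact_mod_cast hq
    rw [div_le_iff₀ (by positivity)]
    have h1 : ((e : ℝ) + 1) ≤ ((a : ℝ) + 1) * (m * q) := by exact_mod_cast ha3
    have h2 : (1 : ℝ) ≤ a := by exact_mod_cast ha1
    have h3 : (0 : ℝ) < m * q := by positivity
    nlinarith
  · intro c hc
    by_contra hne
    have hS : (Finset.univ.filter (fun s => c s ≠ 0)).Nonempty := by
      obtain ⟨s, hs⟩ := Function.ne_iff.1 hne
      exact ⟨s, Finset.mem_filter.2 ⟨Finset.mem_univ s, hs⟩⟩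
    obtain ⟨s₀, hs₀, hmin⟩ := Finset.exists_min_image _
      (fun s => ∑ i, ((eq.symm s).2 i : ℕ)) hS
    have hc0 : c s₀ ≠ 0 := (Finset.mem_filter.1 hs₀).2
    have h1 := hc ((eq.symm s₀).1 : Fin m → F) (eq.symm s₀).1.2
      (Finsupp.equivFunOnFinite.symm (fun i => ((eq.symm s₀).2 i : ℕ))) ?_
    · unfold lc at h1
      unfold shift at h1
      rw [map_sum, coeff_sum, Finset.sum_eq_single s₀] at h1
      · rw [map_mul] at h1
        have e1 : (bind₁ (fun i => X i + C (((eq.symm s₀).1 : Fin m → F) i))) (C (c s₀)) =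
            (C (c s₀) : MvPolynomial (Fin m) F) := bind₁_C_right _ _
        rw [e1, coeff_C_mul] at h1
        rcases mul_eq_zero.1 h1 with h2 | h2
        · exact hc0 h2
        · exact coeff_shift_self _ _ h2
      · intro s _ hs
        rw [map_mul]
        have e1 : (bind₁ (fun i => X i + C (((eq.symm s₀).1 : Fin m → F) i))) (C (c s)) =
            (C (c s) : MvPolynomial (Fin m) F) := bind₁_C_right _ _
        rw [e1, coeff_C_mul]
        by_cases hcs : c s = 0
        · rw [hcs, zero_mul]
        · have h2 := hmin s (Finset.mem_filter.2 ⟨Finset.mem_univ s, hcs⟩)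
          have h3 : coeff (Finsupp.equivFunOnFinite.symm (fun i => ((eq.symm s₀).2 i : ℕ)))
              (shift ((eq.symm s₀).1 : Fin m → F) (Az ((eq.symm s).1 : Fin m → F)
                (fun i => ((eq.symm s).2 i : ℕ)))) = 0 := by
            refine coeff_shift _ _ _ _ h2 ?_
            intro h4
            apply hs
            have h5 : eq.symm s = eq.symm s₀ := by
              refine Prod.ext (Subtype.ext (congrArg Prod.fst h4)) ?_
              funext i
              exact Fin.ext (congrFun (congrArg Prod.snd h4) i)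
            exact eq.symm.injective h5
          unfold shift at h3
          rw [h3, mul_zero]
      · intro h
        exact absurd (Finset.mem_univ _) h
    · have h2 := (arith m q a hq (eq.symm s₀).2).2.trans ha2
      rw [Finsupp.degree_eq_sum]
      exact h2

end Pool.Agent.W366.KP
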